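import Pool.Agent.Q150.FeatherBundle

/-!
# MP_43aaf1_gt, Q1: a homogeneous non-Hausdorff surface with every `NH z` a circle
-/

set_option autoImplicit false

open Set Topology

namespace Pool.Agent.Results.MP_43aaf1_gt.NHCircle

open Pool.Agent.Q150.HNH

theorem result : ∃ (M : Type) (_ : TopologicalSpace M),
    IsHNH 2 M ∧ ∀ z : M, Nonempty (NH z ≃ₜ Circle) := by
  let ι : ℝ →+ AddCircle (1 : ℝ) := QuotientAddGroup.mk' (AddSubgroup.zmultiples (1 : ℝ))
  have hι : Continuous ι := AddCircle.continuous_mk' (1 : ℝ)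
  have hs : Function.Surjective ι := QuotientAddGroup.mk'_surjective _
  obtain ⟨M, t, h1, h2⟩ := Pool.Agent.Q150.Feather.main hι hs.denseRange
    (E := ℝ) (Module.finrank_self ℝ) Pool.Agent.Q150.Feather.circle_chart
  refine ⟨M, t, h1, fun z => ?_⟩
  obtain ⟨e⟩ := h2 z
  exact ⟨e.trans (AddCircle.homeomorphCircle (one_ne_zero))⟩

end Pool.Agent.Results.MP_43aaf1_gt.NHCircle
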