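import Pool.Agent.Q150.FeatherBundle

/-!
# MP_43aaf1_gt, Q2: a homogeneous non-Hausdorff surface with every `NH z` a line
-/

set_option autoImplicit false

open Set Topology

namespace Pool.Agent.Results.MP_43aaf1_gt.NHLine

open Pool.Agent.Q150.HNH

theorem result : ∃ (M : Type) (_ : TopologicalSpace M), IsHNH 2 M ∧ ∀ z : M, Nonempty (NH z ≃ₜ ℝ) :=
  Pool.Agent.Q150.Feather.main (ι := AddMonoidHom.id ℝ) (E := ℝ) continuous_id
    (show Function.Surjective (AddMonoidHom.id ℝ) from Function.surjective_id).denseRange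
    (Module.finrank_self ℝ) fun _ => ⟨univ, isOpen_univ, mem_univ _, ⟨Homeomorph.Set.univ ℝ⟩⟩

end Pool.Agent.Results.MP_43aaf1_gt.NHLine
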